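import Pool.Agent.U693.CT.Tow

/-!
# Infinite and finite sets of primes: existence of the towers
-/

set_option autoImplicit false
set_option linter.unusedSectionVars false

open scoped Classical

namespace Pool.Agent.U693.CT

open Finset IntermediateField NumberField IsDedekindDomain
open Pool.Agent.Y692.QS (Ei w nr nr_mul)
open Pool.Agent.Y715.T.Rec (cs)
open Pool.Agent.Y715.T.RecG (Pq)
open Pool.Agent.Y699.E (PS PD mem_PD)
open Pool.Agent.Y703.CT (GoodE ClsE)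
open Pool.Agent.Y696.CTK (ED Tri ClsK)
open Pool.Agent.U693.Gen (Hom hom_inf hom_fin_multi count)
open Pool.Agent.U693.Eis (kap ps_of cls_of cs_symm cls_prod not_mem)
open Pool.Agent.U693.EisK (PP CubeMod Gd3 om pp_iff non_iff gd_iff om_eq)

variable {K : Type} [Field K] [NumberField K]

/-- homogeneous sets -/
def HT (z : Ei) (T : Set Ei) : Prop :=
  (∀ q ∈ T, Pq q ∧ ¬ q ∣ z ∧ cs q z ≠ 0) ∧
    ∀ A : Finset Ei, (A : Set Ei) ⊆ T → Hom cs kap (PD z) A

/-- the core property -/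
def Cor (D : 𝓞 K) (T : Set (𝓞 K)) : Prop :=
  (∀ q ∈ T, PP q) ∧ (∀ d, Gam T d → (9 : ℤ) ∣ Algebra.norm ℤ d - 1) ∧
    ∀ d, Gam T d → Tri (D * d)

theorem gam_ei (j : Ei ≃+* 𝓞 K) {T : Set Ei} {d : 𝓞 K} (hd : Gam (j '' T) d) :
    ∃ (A : Finset Ei) (a : Ei → ℕ), (A : Set Ei) ⊆ T ∧ 3 ∣ ∑ q ∈ A, a q ∧
      d = j (∏ q ∈ A, q ^ a q) := by
  obtain ⟨B, h1, h2, rfl⟩ := hd
  refine ⟨(B.map j.symm).toFinset, fun q => (B.map j.symm).count q, ?_, ?_, ?_⟩
  · intro q hq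
    have h3 := Multiset.mem_toFinset.1 (Finset.mem_coe.1 hq)
    obtain ⟨b, hb, rfl⟩ := Multiset.mem_map.1 h3
    obtain ⟨t, ht, rfl⟩ := h1 b hb
    rwa [j.symm_apply_apply]
  · rw [Multiset.toFinset_sum_count_eq, Multiset.card_map]
    exact h2
  · rw [Finset.prod_multiset_count (B.map j.symm) |>.symm, map_multiset_prod, Multiset.map_map]
    simp

theorem cor_of (j : Ei ≃+* 𝓞 K) (hj : ∀ z : Ei, Algebra.norm ℤ (j z) = nr z) {z : Ei}
    (hg : GoodE z) {T : Set Ei} (hT : HT z T) : Cor (j z) (j '' T) := by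
  refine ⟨?_, fun d hd => ?_, fun d hd => ?_⟩
  · rintro _ ⟨q, hq, rfl⟩
    exact (pp_iff j q).2 (hT.1 q hq).1
  · obtain ⟨A, a, h1, h2, rfl⟩ := gam_ei j hd
    rw [hj]
    exact nine_pr (fun q hq => (hT.1 q (h1 (Finset.mem_coe.2 hq))).1) (hT.2 A h1).col h2
  · obtain ⟨A, a, h1, h2, rfl⟩ := gam_ei j hd
    rw [← map_mul]
    exact tri_w j hg (fun q hq => hT.1 q (h1 (Finset.mem_coe.2 hq))) (hT.2 A h1) h2

variable [IsCyclotomicExtension {3} ℚ K]

/-- **infinite sets** -/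
theorem inf_cor {D : 𝓞 K} (hg : Gd3 D) {S : Set (𝓞 K)} (hS : ∀ q ∈ S, PP q)
    (hI : {q ∈ S | ¬ CubeMod q D}.Infinite) : ∃ T ⊆ S, T.Infinite ∧ Cor D T := by
  obtain ⟨⟨j, hj⟩, -⟩ := Pool.Agent.Y455.CTK.jex K
  obtain ⟨z, rfl⟩ := j.surjective D
  have hgz := (gd_iff j hj z).1 hg
  have hS' : ∀ q ∈ j ⁻¹' S, Pq q := fun q hq => (pp_iff j q).1 (hS _ hq)
  have hset : {q ∈ S | ¬ CubeMod q (j z)} = j '' {q ∈ j ⁻¹' S | ¬ q ∣ z ∧ cs q z ≠ 0} := by
    ext q
    obtain ⟨y, rfl⟩ := j.surjective q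
    constructor
    · rintro ⟨h1, h2⟩
      exact ⟨y, ⟨h1, (non_iff j (hS' y h1)).1 h2⟩, rfl⟩
    · rintro ⟨x, ⟨h1, h2⟩, h⟩
      have := j.injective h
      subst this
      exact ⟨h1, (non_iff j (hS' x h1)).2 h2⟩
  rw [hset, Set.infinite_image_iff j.injective.injOn] at hI
  obtain ⟨T, hT1, hT2, hT3⟩ := hom_inf cs kap (PD z) _ hI fun p hp q hq =>
    cs_symm (hS' p hp.1) (hS' q hq.1)
  refine ⟨j '' T, Set.image_subset_iff.2 fun q hq => (hT1 hq).1, hT2.image j.injective.injOn,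
    cor_of j hj hgz ⟨fun q hq => ⟨hS' q (hT1 hq).1, (hT1 hq).2⟩, hT3⟩⟩

/-- **the converse** -/
theorem inf_conv {D : 𝓞 K} (hg : Gd3 D) {S : Set (𝓞 K)} (hS : ∀ q ∈ S, PP q)
    {T : Set (𝓞 K)} (hTS : T ⊆ S) (hTi : T.Infinite) (hTri : ∀ d, Gam T d → Tri (D * d)) :
    {q ∈ S | ¬ CubeMod q D}.Infinite := by
  obtain ⟨⟨j, hj⟩, -⟩ := Pool.Agent.Y455.CTK.jex K
  refine (Pool.Agent.U693.EisK.inf_K j hj hg S hS).1 ?_
  obtain ⟨z, rfl⟩ := j.surjective D
  have hgz := (gd_iff j hj z).1 hg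
  have hps := ps_of (cls_of hgz)
  have hT1 : (j ⁻¹' T).Infinite := by
    refine hTi.preimage ?_
    intro x _
    exact j.surjective x
  have hP : ∀ q ∈ j ⁻¹' T, Pq q := fun q hq => (pp_iff j q).1 (hS _ (hTS hq))
  have h1 : (j ⁻¹' T \ (PD z : Set Ei)).Infinite := hT1.sdiff (PD z).finite_toSet
  obtain ⟨T', hT'1, hT'2, hT'3⟩ := hom_inf cs kap (PD z) _ h1 fun p hp q hq =>
    cs_symm (hP p hp.1) (hP q hq.1)
  refine ⟨j '' T', ?_, hT'2.image j.injective.injOn, fun A hA h3 => ?_⟩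
  · rintro _ ⟨q, hq, rfl⟩
    exact hTS (hT'1 hq).1
  · have hA1 : (A.map j.symm.toEquiv.toEmbedding).map j.toEquiv.toEmbedding = A := by
      ext x
      simp
    obtain ⟨A', hA'⟩ : ∃ A', A' = A.map j.symm.toEquiv.toEmbedding := ⟨_, rfl⟩
    rw [← hA'] at hA1
    have hA'T : (A' : Set Ei) ⊆ T' := by
      intro x hx
      rw [hA'] at hx
      obtain ⟨y, hy, rfl⟩ := Finset.mem_map.1 (Finset.mem_coe.1 hx)
      obtain ⟨t, ht, hty⟩ := hA (Finset.mem_coe.2 hy)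
      have : j.symm y = t := by rw [← hty]; exact j.symm_apply_apply t
      show j.symm y ∈ T'
      rw [this]
      exact ht
    have hc : 3 ∣ A'.card := by rw [hA', Finset.card_map]; exact h3
    have hcls : ClsE (z * ∏ q ∈ A', q) := by
      refine cls_prod (cls_of hgz) (fun q hq => hP q (hT'1 (hA'T (Finset.mem_coe.2 hq))).1) ?_
        (hT'3 A' hA'T).col hc
      rw [disjoint_left]
      intro q e1 e2
      exact (hT'1 (hA'T (Finset.mem_coe.2 e2))).2 (Finset.mem_coe.2 e1)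
    have h5 : j z * ∏ q ∈ A, q = j (z * ∏ q ∈ A', q) := by
      rw [Pool.Agent.U693.EisK.map_prod', hA1]
    refine ⟨?_, ?_⟩
    · rw [h5]
      exact (Pool.Agent.Y696.XK.cls_iff j hj _).2 hcls
    · refine hTri _ ⟨A.val, fun q hq => ?_, h3, ?_⟩
      · obtain ⟨t, ht, hty⟩ := hA (Finset.mem_coe.2 (Finset.mem_def.2 hq))
        rw [← hty]
        exact (hT'1 ht).1
      · rw [Finset.prod, Multiset.map_id']

/-- **finite sets** -/
theorem fin_cor {D : 𝓞 K} (hg : Gd3 D) (k : ℕ) (S : Finset (𝓞 K))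
    (hS : ∀ q ∈ S, PP q ∧ ¬ CubeMod q D) (hc : 3 ^ (3 * k + om D + 1) ≤ S.card) :
    S.card.choose k ≤ (3 ^ (3 * k + om D + 1)).choose k *
      ((S.powersetCard k).filter fun A : Finset (𝓞 K) => Cor D (A : Set (𝓞 K))).card := by
  obtain ⟨⟨j, hj⟩, -⟩ := Pool.Agent.Y455.CTK.jex K
  obtain ⟨z, rfl⟩ := j.surjective D
  have hgz := (gd_iff j hj z).1 hg
  have hps := ps_of (cls_of hgz)
  rw [om_eq j hps.ne] at hc ⊢
  refine count S k _ _ ?_ hc ?_
  · calc k ≤ 3 ^ k := (Nat.lt_pow_self (by norm_num)).le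
      _ ≤ _ := Nat.pow_le_pow_right (by norm_num) (by omega)
  · intro B hB hBN
    have hB' : ∀ q ∈ B.map j.symm.toEquiv.toEmbedding, Pq q ∧ ¬ q ∣ z ∧ cs q z ≠ 0 := by
      intro q hq
      obtain ⟨y, hy, rfl⟩ := Finset.mem_map.1 hq
      have h1 := hS y (hB hy)
      have h2 : y = j (j.symm y) := (j.apply_symm_apply y).symm
      have h3 : PP (j (j.symm y)) := by rw [← h2]; exact h1.1
      have h4 : ¬ CubeMod (j (j.symm y)) (j z) := by rw [← h2]; exact h1.2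
      exact ⟨(pp_iff j _).1 h3, (non_iff j ((pp_iff j _).1 h3)).1 h4⟩
    have hPD : ∀ i ∈ PD z, Pq i := fun i hi => ((mem_PD hps.ne).1 hi).1
    obtain ⟨A, hA, hAk, hH⟩ := hom_fin_multi cs kap (PD z) (B.map j.symm.toEquiv.toEmbedding) k
      (fun i hi q hq => cs_symm (hB' q hq).1 (hPD i hi))
      (fun p hp q hq => cs_symm (hB' p hp).1 (hB' q hq).1)
      (by rw [ZMod.card, Finset.card_map, hBN, ← pow_succ])
    refine ⟨A.map j.toEquiv.toEmbedding, ?_, by rw [Finset.card_map, hAk], ?_⟩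
    · intro x hx
      obtain ⟨y, hy, rfl⟩ := Finset.mem_map.1 hx
      obtain ⟨b, hb, rfl⟩ := Finset.mem_map.1 (hA hy)
      show j (j.symm b) ∈ B
      rw [j.apply_symm_apply]
      exact hb
    · have h6 : ((A.map j.toEquiv.toEmbedding : Finset (𝓞 K)) : Set (𝓞 K)) = j '' (A : Set Ei) := by
        rw [Finset.coe_map]
        rfl
      rw [h6]
      exact cor_of j hj hgz ⟨fun q hq => hB' q (hA (Finset.mem_coe.1 hq)),
        fun C hC => hH.mono (Finset.coe_subset.1 hC)⟩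

/-! ### the degrees -/

theorem deg_cf {D : 𝓞 K} (hD : ClsK D) {T : Set (𝓞 K)} (hT : ∀ q ∈ T, PP q)
    (h9 : ∀ d, Gam T d → (9 : ℤ) ∣ Algebra.norm ℤ d - 1) {A : Finset (𝓞 K)}
    (hA : (A : Set (𝓞 K)) ⊆ T) (hne : A.Nonempty) :
    Module.finrank K (cf (A : Set (𝓞 K))) = 3 ^ (A.card - 1) := by
  obtain ⟨p₀, h0⟩ := hne
  obtain ⟨⟨j, hj⟩, -⟩ := Pool.Agent.Y455.CTK.jex K
  have hω := Pool.Agent.R432.C.om_K j
  have hAne : ∀ p ∈ A, p ≠ 0 := fun p hp => (hT p (hA (Finset.mem_coe.2 hp))).1.ne_zero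
  have hgen := cf_fin hω h0 hAne
  let I := {p : 𝓞 K // p ∈ A.erase p₀}
  have hcard : Fintype.card I = A.card - 1 := by
    rw [Fintype.card_coe, Finset.card_erase_of_mem h0]
  let e : Fin (A.card - 1) ≃ I := (Fintype.equivFinOfCardEq hcard).symm
  have hfam : Pool.Agent.U854.TW.Family (fun i : Fin (A.card - 1) => dd p₀ A (e i)) := by
    refine ⟨fun i => gam_three hT (gam_dd hA h0 _), fun i => h9 _ (gam_dd hA h0 _), fun a ha i => ?_⟩
    have h1 : ∏ i, dd p₀ A (e i) ^ a i = ∏ k : I, dd p₀ A k ^ a (e.symm k) := by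
      rw [← e.prod_comp fun k => dd p₀ A k ^ a (e.symm k)]
      exact prod_congr rfl fun i _ => by rw [e.symm_apply_apply]
    rw [h1] at ha
    have h2 := dd_ind (fun p hp => hT p (hA (Finset.mem_coe.2 hp))) h0 (a := fun k => a (e.symm k))
      ha (e i)
    simp only [e.symm_apply_apply] at h2
    exact h2
  obtain ⟨r, -, hr2⟩ := Pool.Agent.U854.TW.perF K hfam hD
  have hmem : ∀ k : I, xx p₀ A k ∈ cf (A : Set (𝓞 K)) := fun k => by
    rw [hgen]
    exact subset_adjoin K _ ⟨k, rfl⟩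
  have hran : cf (A : Set (𝓞 K)) = adjoin K (Set.range fun i => xx p₀ A (e i)) := by
    rw [hgen]
    congr 1
    exact (e.surjective.range_comp (xx p₀ A)).symm
  have hfd : FiniteDimensional K (cf (A : Set (𝓞 K))) := by
    rw [hgen]
    refine finiteDimensional_adjoin (fun z hz => ?_)
    obtain ⟨k, rfl⟩ := hz
    exact (Algebra.IsAlgebraic.isAlgebraic _).isIntegral
  have hN : NumberField (cf (A : Set (𝓞 K))) := NumberField.of_module_finite K _
  exact (hr2 (cf (A : Set (𝓞 K))) (fun i => ⟨xx p₀ A (e i), hmem _⟩)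
    (fun i => Subtype.ext (xx_cube p₀ A (e i))) (gen_of hran _ fun _ => rfl)).1

/-- **infinite degree** -/
theorem cf_inf {D : 𝓞 K} (hD : ClsK D) {T : Set (𝓞 K)} (hT : ∀ q ∈ T, PP q)
    (h9 : ∀ d, Gam T d → (9 : ℤ) ∣ Algebra.norm ℤ d - 1) (hi : T.Infinite) :
    ¬ FiniteDimensional K (cf T) := by
  intro hfd
  set n := Module.finrank K (cf T) with hn
  obtain ⟨P, hP, hc⟩ := hi.exists_subset_card_eq (n + 1)
  have h1 := deg_cf hD hT h9 hP (Finset.card_pos.1 (by rw [hc]; omega))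
  have hle : cf (P : Set (𝓞 K)) ≤ cf T := cf_mono hP
  have h2 : Module.finrank K (cf (P : Set (𝓞 K))) ≤ Module.finrank K (cf T) :=
    LinearMap.finrank_le_finrank_of_injective (f := (IntermediateField.inclusion hle).toLinearMap)
      (IntermediateField.inclusion hle).injective
  rw [h1, hc, Nat.add_sub_cancel] at h2
  have h3 : n < 3 ^ n := Nat.lt_pow_self (by norm_num)
  omega

end Pool.Agent.U693.CT
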