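import Pool.Agent.U693.CT.Wgt
import Pool.Agent.U693.X49.Eis
import Pool.Agent.Q283.T3.Trn2

/-!
# Cubic twists by products of powers of the primes of a homogeneous set
-/

set_option autoImplicit false
set_option linter.unusedSectionVars false

open scoped Classical

namespace Pool.Agent.U693.CT

open Finset Module NumberField
open Pool.Agent.Y692.QS (Ei w nr nr_mul)
open Pool.Agent.Y715.T.Rec (cs)
open Pool.Agent.Y715.T.RecG (Pq)
open Pool.Agent.Y699.E (PS PD mem_PD eq_of_dvd prm prm_one prm_mul prm_pow prm_ne_zero pq_prm)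
open Pool.Agent.Y703.CT (GoodE ClsE)
open Pool.Agent.Y696.CTK (Tri parts)
open Q283.T3 (ex KT mem_KT)
open Q283.T3B (mu fx fx_prod mu_zero main_D)
open Pool.Agent.U693.Gen (Hom)
open Pool.Agent.U693.Eis (kap ps_of cls_of good_iff sum_cs nr_mod norm_kap pow_mod pd_ne not_mem)

theorem kt_one {T : Finset Ei} {e : Ei → ZMod 3} (hne : ∃ π ∈ T, e π ≠ 0) (h : GdW cs e T) :
    finrank (ZMod 3) (KT T e) = 1 := by
  obtain ⟨π₀, h₀, he₀⟩ := hne
  let v : T → ZMod 3 := fun π => if e π = 0 then 0 else 1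
  have hv : v ∈ KT T e := by
    rw [mem_KT]
    refine ⟨fun π hπ => if_pos hπ, fun π => sum_eq_zero fun ρ _ => ?_⟩
    by_cases h1 : e π = 0
    · rw [h1]; ring
    by_cases h2 : e ρ = 0
    · rw [h2]; ring
    · simp only [v, if_neg h1, if_neg h2, sub_self, mul_zero]
  refine finrank_eq_one (⟨v, hv⟩ : KT T e) ?_ ?_
  · intro h0
    have h1 := congrFun (congrArg Subtype.val h0) ⟨π₀, h₀⟩
    have h2 : v ⟨π₀, h₀⟩ = 1 := if_neg he₀
    have h3 : v ⟨π₀, h₀⟩ = 0 := h1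
    rw [h2] at h3
    exact one_ne_zero h3
  · rintro ⟨w, hw⟩
    rw [mem_KT] at hw
    let x : Ei → ZMod 3 := fun π => if hπ : π ∈ T then w ⟨π, hπ⟩ else 0
    have hx : ∀ π : T, x π = w π := fun π => dif_pos π.2
    have h1 := h x (fun p hp hep => by
      have h2 := hw.2 ⟨p, hp⟩
      have h3 : ∑ ρ : T, e p * e ρ * cs p ρ * (w ρ - w ⟨p, hp⟩) =
          e p * ∑ q ∈ T, e q * cs p q * (x q - x p) := by
        rw [mul_sum, ← sum_coe_sort T (fun q => e p * (e q * cs p q * (x q - x p)))]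
        refine sum_congr rfl fun ρ _ => ?_
        have h4 := hx ⟨p, hp⟩
        rw [hx ρ]
        change x p = w ⟨p, hp⟩ at h4
        rw [h4]
        ring
      rw [h3] at h2
      exact (mul_eq_zero.1 h2).resolve_left hep)
    refine ⟨w ⟨π₀, h₀⟩, ?_⟩
    apply Subtype.ext
    funext π
    show w ⟨π₀, h₀⟩ * v π = w π
    by_cases h2 : e π = 0
    · rw [hw.1 π h2]
      have : v π = 0 := if_pos h2
      rw [this, mul_zero]
    · have h3 := h1 π₀ h₀ π π.2 he₀ h2
      have : v π = 1 := if_neg h2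
      rw [this, mul_one, ← hx π, ← h3]
      exact (hx ⟨π₀, h₀⟩).symm

theorem exp_unique {T : Finset Ei} (hT : ∀ π ∈ T, Pq π) {f g : Ei → ℕ}
    (h : ∏ π ∈ T, π ^ f π = ∏ π ∈ T, π ^ g π) : ∀ π ∈ T, f π = g π := by
  intro π hπ
  have key : ∀ f : Ei → ℕ, emultiplicity π (∏ ρ ∈ T, ρ ^ f ρ) = f π := by
    intro f
    have hp := (hT π hπ).prime
    have h0 : emultiplicity π (∏ ρ ∈ T.erase π, ρ ^ f ρ) = 0 := by
      rw [emultiplicity_eq_zero]
      intro hd
      obtain ⟨ρ, hρ, hρd⟩ := (hp.dvd_finsetProd_iff _).1 hd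
      have h1 := eq_of_dvd (hT π hπ) (hT ρ (mem_of_mem_erase hρ)) (hp.dvd_of_dvd_pow hρd)
      exact (ne_of_mem_erase hρ) h1.symm
    rw [← mul_prod_erase T _ hπ, emultiplicity_mul hp, h0, add_zero,
      emultiplicity_pow_self hp.ne_zero hp.not_unit]
  have h1 := key f
  rw [h, key g] at h1
  exact_mod_cast h1.symm

theorem mu_of {A : Finset Ei} (hA : ∀ q ∈ A, Pq q) {a : Ei → ℕ} (hm : prm (∏ q ∈ A, q ^ a q)) :
    PD (∏ q ∈ A, q ^ a q) ⊆ A ∧ ∀ q ∈ A, mu (∏ q ∈ A, q ^ a q) q = (a q : ZMod 3) := by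
  have h1 : PD (∏ q ∈ A, q ^ a q) ⊆ A := by
    intro π hπ
    obtain ⟨h1, h2⟩ := (mem_PD (prm_ne_zero hm)).1 hπ
    obtain ⟨q, hq, hd⟩ := (h1.prime.dvd_finsetProd_iff _).1 h2
    rw [eq_of_dvd h1 (hA q hq) (h1.prime.dvd_of_dvd_pow hd)]
    exact hq
  refine ⟨h1, fun q hq => ?_⟩
  unfold mu
  rw [exp_unique hA (fx_prod hm h1).symm q hq]

theorem prm_pr {A : Finset Ei} (hA : ∀ q ∈ A, Pq q) (a : Ei → ℕ) : prm (∏ q ∈ A, q ^ a q) := by
  induction A using Finset.induction_on with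
  | empty => rw [prod_empty]; exact prm_one
  | insert b s hb ih =>
    rw [prod_insert hb]
    exact prm_mul (prm_pow (pq_prm (hA b (mem_insert_self _ _))) _)
      (ih fun q hq => hA q (mem_insert_of_mem hq))

theorem nr_pow' (q : Ei) (n : ℕ) : nr (q ^ n) = nr q ^ n := by
  induction n with
  | zero => rw [pow_zero, pow_zero]; decide
  | succ n ih => rw [pow_succ, pow_succ, nr_mul, ih]

/-- the norm of the product -/
theorem nine_pr {A : Finset Ei} (hA : ∀ q ∈ A, Pq q) (hk : ∀ q ∈ A, ∀ r ∈ A, kap q = kap r)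
    {a : Ei → ℕ} (h3 : 3 ∣ ∑ q ∈ A, a q) : (9 : ℤ) ∣ nr (∏ q ∈ A, q ^ a q) - 1 := by
  rcases A.eq_empty_or_nonempty with rfl | ⟨q₀, hq₀⟩
  · rw [prod_empty]
    have : nr (1 : Ei) = 1 := by decide
    rw [this]
    norm_num
  have hN : ∀ q ∈ A, nr q % 9 = nr q₀ % 9 := fun q hq =>
    norm_kap (hA q hq).three (hA q₀ hq₀).three (hk q hq q₀ hq₀)
  have h1 : ∀ B ⊆ A, nr (∏ q ∈ B, q ^ a q) % 9 = nr q₀ ^ (∑ q ∈ B, a q) % 9 := by
    intro B hB
    induction B using Finset.induction_on with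
    | empty =>
      rw [prod_empty, sum_empty, pow_zero]
      have : nr (1 : Ei) = 1 := by decide
      rw [this]
    | insert b s hb ih =>
      rw [prod_insert hb, sum_insert hb, nr_mul, nr_pow', Int.mul_emod,
        ih ((subset_insert _ _).trans hB), pow_add, Int.mul_emod (nr q₀ ^ a b)]
      congr 2
      have h4 := hN b (hB (mem_insert_self _ _))
      exact Int.ModEq.pow (a b) h4
  have h2 := h1 A subset_rfl
  rw [pow_mod (nr_mod (hA q₀ hq₀).three) h3] at h2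
  omega

/-- **The twists by the products of powers of the primes of a homogeneous set are good.** -/
theorem tri_w {K : Type} [Field K] [NumberField K] (j : Ei ≃+* 𝓞 K) {D : Ei} (hg : GoodE D)
    {A : Finset Ei} (hA : ∀ q ∈ A, Pq q ∧ ¬ q ∣ D ∧ cs q D ≠ 0) (hH : Hom cs kap (PD D) A)
    {a : Ei → ℕ} (h3 : 3 ∣ ∑ q ∈ A, a q) : Tri (j (D * ∏ q ∈ A, q ^ a q)) := by
  have hD := cls_of hg
  have hps := ps_of hD
  have hAq : ∀ q ∈ A, Pq q := fun q hq => (hA q hq).1
  have hd : Disjoint (PD D) A := by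
    rw [disjoint_left]
    exact fun q h1 h2 => not_mem hps.ne (hA q h2).2.1 h1
  have hm := prm_pr hAq a
  obtain ⟨hW, hmu⟩ := mu_of hAq (a := a) hm
  have h9 := nine_pr hAq hH.col h3
  refine (main_D parts j hD hm h9 hW hAq).2.2.2.1 (kt_one ?_ ?_)
  · obtain ⟨i, hi⟩ := pd_ne hD
    refine ⟨i, mem_union_left _ hi, ?_⟩
    unfold ex
    rw [if_pos hi, mu_zero fun h => disjoint_left.1 hd hi (hW h), add_zero]
    exact one_ne_zero
  · have e1 : ∀ i ∈ PD D, ex (mu (∏ q ∈ A, q ^ a q)) (PD D) i = 1 := by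
      intro i hi
      unfold ex
      rw [if_pos hi, mu_zero fun h => disjoint_left.1 hd hi (hW h), add_zero]
    have e2 : ∀ q ∈ A, ex (mu (∏ q ∈ A, q ^ a q)) (PD D) q = (a q : ZMod 3) := by
      intro q hq
      unfold ex
      rw [if_neg fun h => disjoint_left.1 hd h hq, hmu q hq, zero_add]
    refine gdW_hom hd ?_ ?_ ?_ hH ?_
    · rw [sum_congr rfl e2, ← Nat.cast_sum]
      exact (ZMod.natCast_eq_zero_iff _ _).2 h3
    · obtain ⟨i, hi⟩ := pd_ne hD
      exact ⟨i, hi, by rw [e1 i hi]; exact one_ne_zero⟩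
    · intro x hx p hp q hq _ _
      refine (good_iff.1 hg).2 x (fun r hr _ => ?_) p hp q hq
      have h4 := hx r hr (by rw [e1 r hr]; exact one_ne_zero)
      rw [← h4]
      exact sum_congr rfl fun i hi => by rw [e1 i hi, one_mul]
    · intro q hq
      have h4 : ∑ i ∈ PD D, ex (mu (∏ q ∈ A, q ^ a q)) (PD D) i * cs q i = cs q D := by
        rw [← sum_cs hps (hA q hq).1 (hA q hq).2.1]
        exact sum_congr rfl fun i hi => by rw [e1 i hi, one_mul]
      rw [h4]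
      exact (hA q hq).2.2

end Pool.Agent.U693.CT
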