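import Pool.Agent.R432.C7

/-!
# Intermediate fields of Kummer extensions of exponent three are generated by cube roots
-/

set_option autoImplicit false
set_option linter.unusedSectionVars false

open scoped Classical

namespace Pool.Agent.U693.CT

open Finset IntermediateField

section mono
variable {K L : Type} [Field K] [Field L] [Algebra K L] {I : Type} [Fintype I]

/-- monomials -/
noncomputable def mono (x : I → L) (t : I → ZMod 3) : L := ∏ i, x i ^ (t i).val

theorem mono_zero (x : I → L) : mono x 0 = 1 := by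
  unfold mono
  exact prod_eq_one fun i _ => by rw [Pi.zero_apply, ZMod.val_zero, pow_zero]

theorem mono_ne {x : I → L} (hx : ∀ i, x i ≠ 0) (t : I → ZMod 3) : mono x t ≠ 0 :=
  prod_ne_zero_iff.2 fun i _ => pow_ne_zero _ (hx i)

theorem mono_single (x : I → L) (i : I) : mono x (Pi.single i 1) = x i := by
  unfold mono
  rw [prod_eq_single i]
  · rw [Pi.single_eq_same]
    have : (1 : ZMod 3).val = 1 := rfl
    rw [this, pow_one]
  · intro k _ hk
    rw [Pi.single_eq_of_ne hk, ZMod.val_zero, pow_zero]
  · intro h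
    exact absurd (mem_univ i) h

variable {d : I → K} {x : I → L} (hd : ∀ i, d i ≠ 0)
  (hx : ∀ i, x i ^ 3 = algebraMap K L (d i))

include hx in
theorem mono_mul (s t : I → ZMod 3) :
    mono x s * mono x t =
      algebraMap K L (∏ i, d i ^ (((s i).val + (t i).val) / 3)) * mono x (s + t) := by
  unfold mono
  rw [map_prod, ← prod_mul_distrib, ← prod_mul_distrib]
  refine prod_congr rfl fun i _ => ?_
  rw [← pow_add, map_pow, ← hx, ← pow_mul, ← pow_add, Pi.add_apply, ZMod.val_add]
  congr 1
  omega

include hx in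
theorem mono_cube (t : I → ZMod 3) :
    mono x t ^ 3 = algebraMap K L (∏ i, d i ^ (t i).val) := by
  unfold mono
  rw [map_prod, ← prod_pow]
  refine prod_congr rfl fun i _ => ?_
  rw [map_pow, ← hx, ← pow_mul, ← pow_mul, mul_comm]

include hd in
theorem cf_ne (s t : I → ZMod 3) : ∏ i, d i ^ (((s i).val + (t i).val) / 3) ≠ 0 :=
  prod_ne_zero_iff.2 fun i _ => pow_ne_zero _ (hd i)

include hd hx in
/-- the exponents of the monomials in `F` -/
noncomputable def VF (F : IntermediateField K L) : Submodule (ZMod 3) (I → ZMod 3) where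
  carrier := {t | mono x t ∈ F}
  zero_mem' := by
    show mono x 0 ∈ F
    rw [mono_zero]
    exact one_mem F
  add_mem' := by
    intro s t hs ht
    show mono x (s + t) ∈ F
    have h1 := mono_mul hx s t
    have h2 : mono x (s + t) = (algebraMap K L (∏ i, d i ^ (((s i).val + (t i).val) / 3)))⁻¹ *
        (mono x s * mono x t) := by
      rw [h1, inv_mul_cancel_left₀ ((map_ne_zero _).2 (cf_ne hd s t))]
    rw [h2]
    exact mul_mem (inv_mem (F.algebraMap_mem _)) (mul_mem hs ht)
  smul_mem' := by
    intro a t ht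
    have h0 : mono x (0 : I → ZMod 3) ∈ F := by
      rw [mono_zero]
      exact one_mem F
    have h2 : mono x (t + t) ∈ F := by
      have h1 := mono_mul hx t t
      have h2 : mono x (t + t) = (algebraMap K L (∏ i, d i ^ (((t i).val + (t i).val) / 3)))⁻¹ *
          (mono x t * mono x t) := by
        rw [h1, inv_mul_cancel_left₀ ((map_ne_zero _).2 (cf_ne hd t t))]
      rw [h2]
      exact mul_mem (inv_mem (F.algebraMap_mem _)) (mul_mem ht ht)
    have h3 : ∀ a : ZMod 3, a = 0 ∨ a = 1 ∨ a = 2 := by decide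
    rcases h3 a with rfl | rfl | rfl
    · rw [zero_smul]
      exact h0
    · rw [one_smul]
      exact ht
    · have : (2 : ZMod 3) • t = t + t := two_smul _ t
      rw [this]
      exact h2

theorem mem_VF {F : IntermediateField K L} {t : I → ZMod 3} : t ∈ VF hd hx F ↔ mono x t ∈ F :=
  Iff.rfl

end mono

section full
variable {K L : Type} [Field K] [CharZero K] [Field L] [Algebra K L] {I : Type} [Fintype I]
  {d : I → K} {x : I → L}

/-- the monomials span -/
theorem span_mono (hd : ∀ i, d i ≠ 0) (hx : ∀ i, x i ^ 3 = algebraMap K L (d i))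
    (hgen : ∀ S : Subfield L, (∀ k : K, algebraMap K L k ∈ S) → (∀ i, x i ∈ S) → S = ⊤)
    (hfd : FiniteDimensional K L) :
    Submodule.span K (Set.range (mono x)) = ⊤ := by
  let A : Subalgebra K L :=
    { carrier := Submodule.span K (Set.range (mono x))
      add_mem' := fun h1 h2 => Submodule.add_mem _ h1 h2
      mul_mem' := by
        intro a b ha hb
        refine Submodule.span_induction₂ (p := fun a b _ _ =>
          a * b ∈ Submodule.span K (Set.range (mono x))) ?_ ?_ ?_ ?_ ?_ ?_ ?_ ha hb
        · rintro _ _ ⟨s, rfl⟩ ⟨t, rfl⟩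
          rw [mono_mul hx, ← Algebra.smul_def]
          exact Submodule.smul_mem _ _ (Submodule.subset_span ⟨_, rfl⟩)
        · intro y _
          rw [zero_mul]
          exact Submodule.zero_mem _
        · intro y _
          rw [mul_zero]
          exact Submodule.zero_mem _
        · intro a b c _ _ _ h1 h2
          rw [add_mul]
          exact Submodule.add_mem _ h1 h2
        · intro a b c _ _ _ h1 h2
          rw [mul_add]
          exact Submodule.add_mem _ h1 h2
        · intro r a b _ _ h1
          rw [smul_mul_assoc]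
          exact Submodule.smul_mem _ _ h1
        · intro r a b _ _ h1
          rw [mul_smul_comm]
          exact Submodule.smul_mem _ _ h1
      algebraMap_mem' := fun r => by
        show algebraMap K L r ∈ Submodule.span K (Set.range (mono x))
        have h1 : algebraMap K L r = r • mono x 0 := by
          rw [mono_zero, Algebra.smul_def, mul_one]
        rw [h1]
        exact Submodule.smul_mem _ _ (Submodule.subset_span ⟨_, rfl⟩) }
  have hA : ∀ a ∈ A, a⁻¹ ∈ A := by
    intro a ha
    exact Subalgebra.inv_mem_of_algebraic (A := A) (x := ⟨a, ha⟩)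
      (Algebra.IsAlgebraic.isAlgebraic a)
  let S : Subfield L := { A.toSubring with inv_mem' := hA }
  have h1 := hgen S (fun k => A.algebraMap_mem k) (fun i => by
    show x i ∈ Submodule.span K (Set.range (mono x))
    rw [← mono_single x i]
    exact Submodule.subset_span ⟨_, rfl⟩)
  rw [eq_top_iff]
  intro y _
  have h2 : y ∈ S := by rw [h1]; trivial
  exact h2

/-- **Intermediate fields are spanned by monomials.** -/
theorem inter_span {ω : K} (hω : ω ^ 2 + ω + 1 = 0) (hd : ∀ i, d i ≠ 0)
    (hx : ∀ i, x i ^ 3 = algebraMap K L (d i))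
    (hgen : ∀ S : Subfield L, (∀ k : K, algebraMap K L k ∈ S) → (∀ i, x i ∈ S) → S = ⊤)
    (F : IntermediateField K L) {y : L} (hy : y ∈ F) :
    ∃ a : (I → ZMod 3) → K, (∀ t, a t ≠ 0 → mono x t ∈ F) ∧ y = ∑ t, a t • mono x t := by
  obtain ⟨hfd, hgal⟩ := Pool.Agent.R432.C.gal3 (F := L) hω (I := I) d x hx hgen
  have hy1 : y ∈ Submodule.span K (Set.range (mono x)) := by
    rw [span_mono hd hx hgen hfd]
    trivial
  obtain ⟨c, hc⟩ := (Submodule.mem_span_range_iff_exists_fun K).1 hy1
  have hx0 : ∀ i, x i ≠ 0 := by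
    intro i h
    have h1 := hx i
    rw [h, zero_pow three_ne_zero] at h1
    exact hd i ((map_eq_zero (algebraMap K L)).1 h1.symm)
  -- the action on monomials
  have hu : ∀ (σ : L ≃ₐ[K] L) (t : I → ZMod 3), ∃ u : K, σ (mono x t) = u • mono x t := by
    intro σ t
    have h1 : (σ (mono x t) / mono x t) ^ 3 = 1 := by
      rw [div_pow, ← map_pow, mono_cube hx, AlgEquiv.commutes, div_self]
      exact (map_ne_zero _).2 (prod_ne_zero_iff.2 fun i _ => pow_ne_zero _ (hd i))
    have h2 : ∃ u : K, algebraMap K L u = σ (mono x t) / mono x t := by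
      set z := σ (mono x t) / mono x t with hz
      have hW : (algebraMap K L ω) ^ 2 + algebraMap K L ω + 1 = 0 := by
        rw [← map_pow, ← map_add, ← map_one (algebraMap K L), ← map_add, hω, map_zero]
      have h3 : (z - 1) * ((z - algebraMap K L ω) * (z - algebraMap K L ω ^ 2)) = 0 := by
        linear_combination h1 + (z ^ 2 - z - (algebraMap K L ω - 1) * z ^ 2 - (z - 1) * z *
          (-1) * 0 + (z - 1) * (-z + (algebraMap K L ω - 1)) - (z ^ 2 - z -
            (algebraMap K L ω - 1) * z ^ 2)) * hW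
      rcases mul_eq_zero.1 h3 with h4 | h4
      · exact ⟨1, by rw [map_one]; linear_combination -h4⟩
      · rcases mul_eq_zero.1 h4 with h5 | h5
        · exact ⟨ω, by linear_combination -h5⟩
        · exact ⟨ω ^ 2, by rw [map_pow]; linear_combination -h5⟩
    obtain ⟨u, hu⟩ := h2
    refine ⟨u, ?_⟩
    rw [Algebra.smul_def, hu, div_mul_cancel₀ _ (mono_ne hx0 t)]
  let H := F.fixingSubgroup
  let Av : L → L := fun z => ∑ σ : H, (σ : L ≃ₐ[K] L) z
  have hAv1 : ∀ z ∈ F, Av z = (Fintype.card H : K) • z := by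
    intro z hz
    have h1 : ∀ σ : H, (σ : L ≃ₐ[K] L) z = z := fun σ =>
      (IntermediateField.mem_fixingSubgroup_iff F _).1 σ.2 z hz
    show ∑ σ : H, (σ : L ≃ₐ[K] L) z = _
    rw [sum_congr rfl fun σ _ => h1 σ, sum_const, card_univ]
    exact (Nat.cast_smul_eq_nsmul K _ z).symm
  have hAv2 : ∀ t, mono x t ∉ F → Av (mono x t) = 0 := by
    intro t ht
    have h1 : ∃ σ : H, (σ : L ≃ₐ[K] L) (mono x t) ≠ mono x t := by
      by_contra hcon
      push Not at hcon
      apply ht
      have h2 : mono x t ∈ IntermediateField.fixedField H := fun σ => hcon σ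
      rwa [IsGalois.fixedField_fixingSubgroup] at h2
    obtain ⟨σ₀, hσ₀⟩ := h1
    obtain ⟨u, hu1⟩ := hu σ₀ t
    have h3 : Av ((σ₀ : L ≃ₐ[K] L) (mono x t)) = Av (mono x t) := by
      show ∑ σ : H, (σ : L ≃ₐ[K] L) ((σ₀ : L ≃ₐ[K] L) (mono x t)) = ∑ σ : H, (σ : L ≃ₐ[K] L) (mono x t)
      exact Fintype.sum_equiv (Equiv.mulRight σ₀) _ _ fun σ => rfl
    have h4 : Av ((σ₀ : L ≃ₐ[K] L) (mono x t)) = u • Av (mono x t) := by
      rw [hu1]
      show ∑ σ : H, (σ : L ≃ₐ[K] L) (u • mono x t) = u • ∑ σ : H, (σ : L ≃ₐ[K] L) (mono x t)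
      rw [smul_sum]
      exact sum_congr rfl fun σ _ => map_smul _ _ _
    have h5 : u ≠ 1 := by
      rintro rfl
      apply hσ₀
      rw [hu1, one_smul]
    have h6 : (u - 1) • Av (mono x t) = 0 := by
      rw [sub_smul, one_smul, ← h4, h3, sub_self]
    exact (smul_eq_zero.1 h6).resolve_left (sub_ne_zero.2 h5)
  refine ⟨fun t => if mono x t ∈ F then c t else 0, fun t h => ?_, ?_⟩
  · by_contra h1
    exact h (if_neg h1)
  · have hH : (Fintype.card H : K) ≠ 0 := Nat.cast_ne_zero.2 Fintype.card_pos.ne'
    have h1 : (Fintype.card H : K) • y = (Fintype.card H : K) •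
        ∑ t, (if mono x t ∈ F then c t else 0) • mono x t := by
      rw [← hAv1 y hy, ← hc]
      show ∑ σ : H, (σ : L ≃ₐ[K] L) (∑ t, c t • mono x t) = _
      simp only [map_sum, map_smul]
      rw [sum_comm, smul_sum]
      refine sum_congr rfl fun t _ => ?_
      rw [← smul_sum]
      show c t • Av (mono x t) = _
      by_cases h2 : mono x t ∈ F
      · rw [if_pos h2, hAv1 _ h2, smul_comm]
      · rw [if_neg h2, hAv2 t h2, smul_zero, zero_smul, smul_zero]
    exact smul_right_injective L hH h1

end full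

end Pool.Agent.U693.CT
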