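import Pool.Agent.U693.CT.Kum

/-!
# Subfields of `K(∛d : d)` inside a fixed extension
-/

set_option autoImplicit false
set_option linter.unusedSectionVars false

open scoped Classical

namespace Pool.Agent.U693.CT

open Finset IntermediateField

section gen
variable {K L : Type} [Field K] [Field L] [Algebra K L]

/-- the generators generate the field, in terms of subfields -/
theorem gen_of {I : Type} {y : I → L} {F : IntermediateField K L} (hF : F = adjoin K (Set.range y))
    (y' : I → F) (hy : ∀ i, (y' i : L) = y i) (S : Subfield F)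
    (h1 : ∀ k : K, algebraMap K F k ∈ S) (h2 : ∀ i, y' i ∈ S) : S = ⊤ := by
  rw [eq_top_iff]
  intro z _
  let L' : IntermediateField K L :=
    { (S.map (algebraMap F L)) with
      algebraMap_mem' := fun k => ⟨algebraMap K F k, h1 k, rfl⟩ }
  have h3 : F ≤ L' := by
    conv_lhs => rw [hF]
    apply adjoin_le_iff.2
    rintro _ ⟨i, rfl⟩
    exact ⟨_, h2 i, hy i⟩
  obtain ⟨z', hz', h4⟩ := h3 z.2
  have h5 : z' = z := Subtype.ext h4
  rw [← h5]
  exact hz'

end gen

section sub
variable {K L : Type} [Field K] [CharZero K] [Field L] [Algebra K L] {I : Type} [Fintype I]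
  {d : I → K} {x : I → L}

/-- **Intermediate fields are generated by independent monomials.** -/
theorem inter_gen {ω : K} (hω : ω ^ 2 + ω + 1 = 0) (hd : ∀ i, d i ≠ 0)
    (hx : ∀ i, x i ^ 3 = algebraMap K L (d i)) (F : IntermediateField K L)
    (hF : F ≤ adjoin K (Set.range x)) :
    ∃ (m : ℕ) (t : Fin m → I → ZMod 3), LinearIndependent (ZMod 3) t ∧
      F = adjoin K (Set.range fun j => mono x (t j)) := by
  obtain ⟨E, hE⟩ : ∃ E, E = adjoin K (Set.range x) := ⟨_, rfl⟩
  rw [← hE] at hF
  have hxE : ∀ i, x i ∈ E := fun i => by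
    rw [hE]
    exact subset_adjoin K _ ⟨i, rfl⟩
  let x' : I → E := fun i => ⟨x i, hxE i⟩
  have hx' : ∀ i, x' i ^ 3 = algebraMap K E (d i) := fun i => Subtype.ext (hx i)
  have hgen := gen_of hE x' (fun _ => rfl)
  have hcoe : ∀ t, ((mono x' t : E) : L) = mono x t := by
    intro t
    unfold mono
    push_cast
    rfl
  have hspan : ∀ y ∈ F, ∃ a : (I → ZMod 3) → K, (∀ t, a t ≠ 0 → mono x t ∈ F) ∧
      y = ∑ t, a t • mono x t := by
    intro y hy
    obtain ⟨a, h1, h2⟩ := inter_span hω hd hx' hgen (restrict hF) (y := ⟨y, hF hy⟩)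
      ((mem_restrict hF _).2 hy)
    refine ⟨a, fun t ht => ?_, ?_⟩
    · have h3 := (mem_restrict hF _).1 (h1 t ht)
      rwa [hcoe] at h3
    · have h3 := congrArg (fun z : E => (z : L)) h2
      simp only [IntermediateField.coe_sum, IntermediateField.coe_smul, hcoe] at h3
      exact h3
  let V := VF hd hx F
  let b := Module.finBasis (ZMod 3) V
  refine ⟨_, fun j => (b j : I → ZMod 3), ?_, ?_⟩
  · exact b.linearIndependent.map' V.subtype (Submodule.ker_subtype V)
  · apply le_antisymm
    · have hV : ∀ t ∈ V, mono x t ∈ adjoin K (Set.range fun j => mono x (b j : I → ZMod 3)) := by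
        intro t ht
        have h1 : (⟨t, ht⟩ : V) ∈ Submodule.span (ZMod 3) (Set.range b) := by
          rw [b.span_eq]
          trivial
        have h2 : Submodule.span (ZMod 3) (Set.range b) ≤
            (VF hd hx (adjoin K (Set.range fun j => mono x (b j : I → ZMod 3)))).comap
              V.subtype := by
          rw [Submodule.span_le]
          rintro _ ⟨j, rfl⟩
          exact subset_adjoin K _ ⟨j, rfl⟩
        exact h2 h1
      intro y hy
      obtain ⟨a, h1, h2⟩ := hspan y hy
      rw [h2]
      refine sum_mem fun t _ => ?_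
      by_cases h3 : a t = 0
      · rw [h3, zero_smul]
        exact zero_mem _
      · rw [Algebra.smul_def]
        exact mul_mem (IntermediateField.algebraMap_mem _ _) (hV t (h1 t h3))
    · apply adjoin_le_iff.2
      rintro _ ⟨j, rfl⟩
      exact (b j).2

end sub

end Pool.Agent.U693.CT
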