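import Pool.Agent.U693.CT.Sub
import Pool.Agent.U693.CT.Ext
import Pool.Agent.U693.X49.EisK
import Pool.Agent.U854.TW.C

/-!
# The fields `K(∛(p / q) : p, q ∈ T)` and their subfields
-/

set_option autoImplicit false
set_option linter.unusedSectionVars false

open scoped Classical

namespace Pool.Agent.U693.CT

open Finset IntermediateField NumberField IsDedekindDomain
open Pool.Agent.TH841.NF.D (Sha)
open Pool.Agent.Y696.CTK (ED Tri ClsK)
open Pool.Agent.R432.V (ef)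
open Pool.Agent.U693.EisK (PP)

section field
variable {K : Type} [Field K] [NumberField K]

/-- `K(∛(p / q) : p, q ∈ T)` -/
noncomputable def cf (T : Set (𝓞 K)) : IntermediateField K (AlgebraicClosure K) :=
  adjoin K {z | ∃ p ∈ T, ∃ q ∈ T, z ^ 3 * algebraMap K (AlgebraicClosure K) (q : K) =
    algebraMap K (AlgebraicClosure K) (p : K)}

theorem rt_ex (q : 𝓞 K) : ∃ z : AlgebraicClosure K, z ^ 3 = algebraMap K _ (q : K) :=
  IsAlgClosed.exists_pow_nat_eq _ (by norm_num)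

/-- a cube root -/
noncomputable def rt (q : 𝓞 K) : AlgebraicClosure K := (rt_ex q).choose

theorem rt_cube (q : 𝓞 K) : rt q ^ 3 = algebraMap K _ (q : K) := (rt_ex q).choose_spec

theorem rt_ne {q : 𝓞 K} (h : q ≠ 0) : rt q ≠ 0 := by
  intro h0
  have h1 := rt_cube q
  rw [h0, zero_pow three_ne_zero] at h1
  have h2 : (q : K) = 0 := (map_eq_zero _).1 h1.symm
  exact h (by exact_mod_cast h2)

/-- the generators -/
noncomputable def xx (p₀ : 𝓞 K) (A : Finset (𝓞 K)) (p : {p : 𝓞 K // p ∈ A.erase p₀}) :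
    AlgebraicClosure K := rt p.1 * rt p₀ ^ 2

/-- their cubes -/
def dd (p₀ : 𝓞 K) (A : Finset (𝓞 K)) (p : {p : 𝓞 K // p ∈ A.erase p₀}) : 𝓞 K := p.1 * p₀ ^ 2

theorem xx_cube (p₀ : 𝓞 K) (A : Finset (𝓞 K)) (p : {p : 𝓞 K // p ∈ A.erase p₀}) :
    xx p₀ A p ^ 3 = algebraMap K _ (dd p₀ A p : K) := by
  unfold xx dd
  have e : ((p.1 * p₀ ^ 2 : 𝓞 K) : K) = (p.1 : K) * (p₀ : K) ^ 2 := by push_cast; ring
  rw [mul_pow, ← pow_mul, mul_comm 2 3, pow_mul, rt_cube, rt_cube, e, map_mul, map_pow]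

theorem cube_one {ω : K} (hω : ω ^ 2 + ω + 1 = 0) {L : Type} [Field L] [Algebra K L] {z : L}
    (h : z ^ 3 = 1) : ∃ u : K, algebraMap K L u = z := by
  have hW : (algebraMap K L ω) ^ 2 + algebraMap K L ω + 1 = 0 := by
    rw [← map_pow, ← map_add, ← map_one (algebraMap K L), ← map_add, hω, map_zero]
  set W := algebraMap K L ω with hWd
  have h3 : (z - 1) * ((z - W) * (z - W ^ 2)) = 0 := by
    linear_combination h + (-z ^ 2 + z + (z - 1) * (W - 1)) * hW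
  rcases mul_eq_zero.1 h3 with h4 | h4
  · exact ⟨1, by rw [map_one]; linear_combination -h4⟩
  · rcases mul_eq_zero.1 h4 with h5 | h5
    · exact ⟨ω, by linear_combination -h5⟩
    · exact ⟨ω ^ 2, by rw [map_pow]; linear_combination -h5⟩

theorem gen_mem {ω : K} (hω : ω ^ 2 + ω + 1 = 0) {p₀ : 𝓞 K} {A : Finset (𝓞 K)} (h0 : p₀ ∈ A)
    (hA : ∀ p ∈ A, p ≠ 0) {p q : 𝓞 K} (hp : p ∈ A) (hq : q ∈ A) {z : AlgebraicClosure K}
    (hz : z ^ 3 * algebraMap K (AlgebraicClosure K) (q : K) =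
      algebraMap K (AlgebraicClosure K) (p : K)) : z ∈ adjoin K (Set.range (xx p₀ A)) := by
  set E := adjoin K (Set.range (xx p₀ A)) with hE
  have h1 : ∀ p ∈ A, rt p * rt p₀ ^ 2 ∈ E := by
    intro p hp
    by_cases h : p = p₀
    · rw [h, ← pow_succ', rt_cube]
      exact IntermediateField.algebraMap_mem _ _
    · exact subset_adjoin K _ ⟨⟨p, Finset.mem_erase.2 ⟨h, hp⟩⟩, rfl⟩
  have hr := rt_ne (hA p hp)
  have hr' := rt_ne (hA q hq)
  have hr0 := rt_ne (hA p₀ h0)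
  have h2 : (z * rt q / rt p) ^ 3 = 1 := by
    rw [div_pow, mul_pow, rt_cube, rt_cube, hz, div_self]
    rw [← rt_cube p]
    exact pow_ne_zero 3 hr
  obtain ⟨u, hu⟩ := cube_one hω h2
  have h3 : z = algebraMap K _ u * (rt p * rt p₀ ^ 2) * (rt q * rt p₀ ^ 2)⁻¹ := by
    rw [hu]
    field_simp
  rw [h3]
  exact mul_mem (mul_mem (IntermediateField.algebraMap_mem _ _) (h1 p hp)) (inv_mem (h1 q hq))

theorem gen_le {p₀ : 𝓞 K} {A : Finset (𝓞 K)} (h0 : p₀ ∈ A) (hA : ∀ p ∈ A, p ≠ 0) :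
    adjoin K (Set.range (xx p₀ A)) ≤ cf (A : Set (𝓞 K)) := by
  rw [adjoin_le_iff]
  rintro _ ⟨⟨p, hp⟩, rfl⟩
  have hp' := Finset.mem_of_mem_erase hp
  have hr0 := rt_ne (hA p₀ h0)
  have h1 : xx p₀ A ⟨p, hp⟩ = (rt p * (rt p₀)⁻¹) * algebraMap K _ (p₀ : K) := by
    unfold xx
    rw [← rt_cube p₀]
    field_simp
  rw [h1]
  refine mul_mem (subset_adjoin K _ ⟨p, hp', p₀, h0, ?_⟩) (IntermediateField.algebraMap_mem _ _)
  rw [mul_pow, inv_pow, rt_cube, rt_cube, inv_mul_cancel_right₀]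
  rw [← rt_cube p₀]
  exact pow_ne_zero 3 hr0

theorem cf_fin {ω : K} (hω : ω ^ 2 + ω + 1 = 0) {p₀ : 𝓞 K} {A : Finset (𝓞 K)} (h0 : p₀ ∈ A)
    (hA : ∀ p ∈ A, p ≠ 0) : cf (A : Set (𝓞 K)) = adjoin K (Set.range (xx p₀ A)) := by
  refine le_antisymm ?_ (gen_le h0 hA)
  unfold cf
  rw [adjoin_le_iff]
  rintro z ⟨p, hp, q, hq, hz⟩
  exact gen_mem hω h0 hA (Finset.mem_coe.1 hp) (Finset.mem_coe.1 hq) hz

theorem cf_mono {S T : Set (𝓞 K)} (h : S ⊆ T) : cf S ≤ cf T := by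
  unfold cf
  refine adjoin.mono K _ _ ?_
  rintro z ⟨p, hp, q, hq, hz⟩
  exact ⟨p, h hp, q, h hq, hz⟩

/-- every finite set of elements of the field of `T` is in the field of a finite subset -/
theorem cf_sub_fin {T : Set (𝓞 K)} (Z : Finset (AlgebraicClosure K))
    (hZ : ∀ z ∈ Z, z ∈ cf T) : ∃ A : Finset (𝓞 K), (A : Set (𝓞 K)) ⊆ T ∧
      ∀ z ∈ Z, z ∈ cf (A : Set (𝓞 K)) := by
  have h1 : ∀ z : AlgebraicClosure K, ∃ A : Finset (𝓞 K), (A : Set (𝓞 K)) ⊆ T ∧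
      (z ∈ Z → z ∈ cf (A : Set (𝓞 K))) := by
    intro z
    by_cases hz : z ∈ Z
    · obtain ⟨Z1, h1, h2⟩ := exists_finset_of_mem_adjoin (hZ z hz)
      have h3 : ∀ y : AlgebraicClosure K, ∃ p q : 𝓞 K, y ∈ Z1 → p ∈ T ∧ q ∈ T ∧
          y ^ 3 * algebraMap K (AlgebraicClosure K) (q : K) =
            algebraMap K (AlgebraicClosure K) (p : K) := by
        intro y
        by_cases hy : y ∈ Z1
        · obtain ⟨p, hp, q, hq, h⟩ := h1 (Finset.mem_coe.2 hy)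
          exact ⟨p, q, fun _ => ⟨hp, hq, h⟩⟩
        · exact ⟨0, 0, fun h => absurd h hy⟩
      choose p q hpq using h3
      refine ⟨Z1.image p ∪ Z1.image q, ?_, fun _ => ?_⟩
      · intro r hr
        rcases Finset.mem_union.1 (Finset.mem_coe.1 hr) with h | h
        · obtain ⟨y, hy, rfl⟩ := Finset.mem_image.1 h
          exact (hpq y hy).1
        · obtain ⟨y, hy, rfl⟩ := Finset.mem_image.1 h
          exact (hpq y hy).2.1
      · refine adjoin.mono K _ _ (fun y hy => ?_) h2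
        have hy' := Finset.mem_coe.1 hy
        exact ⟨p y, Finset.mem_coe.2 (Finset.mem_union_left _ (Finset.mem_image_of_mem p hy')), q y,
          Finset.mem_coe.2 (Finset.mem_union_right _ (Finset.mem_image_of_mem q hy')), (hpq y hy').2.2⟩
    · exact ⟨∅, by simp, fun h => absurd h hz⟩
  choose A hA1 hA2 using h1
  refine ⟨Z.biUnion A, ?_, fun z hz => ?_⟩
  · intro r hr
    obtain ⟨z, hz, h⟩ := Finset.mem_biUnion.1 (Finset.mem_coe.1 hr)
    exact hA1 z (Finset.mem_coe.2 h)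
  · refine cf_mono ?_ (hA2 z hz)
    intro r hr
    exact Finset.mem_coe.2 (Finset.mem_biUnion.2 ⟨z, hz, Finset.mem_coe.1 hr⟩)

theorem cf_sub {T : Set (𝓞 K)} (F : IntermediateField K (AlgebraicClosure K))
    [FiniteDimensional K F] (hF : F ≤ cf T) :
    ∃ A : Finset (𝓞 K), (A : Set (𝓞 K)) ⊆ T ∧ F ≤ cf (A : Set (𝓞 K)) := by
  let B := Module.finBasis K F
  obtain ⟨A, h1, h2⟩ := cf_sub_fin (univ.image fun i => (B i : AlgebraicClosure K)) (T := T)
    fun z hz => by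
      obtain ⟨i, -, rfl⟩ := Finset.mem_image.1 hz
      exact hF (B i).2
  refine ⟨A, h1, fun x hx => ?_⟩
  have h3 := B.sum_repr ⟨x, hx⟩
  have h4 : x = ∑ i, (B.repr ⟨x, hx⟩ i) • (B i : AlgebraicClosure K) := by
    have h5 := congrArg (fun y : F => (y : AlgebraicClosure K)) h3
    simp only [IntermediateField.coe_sum] at h5
    exact h5.symm
  rw [h4]
  refine sum_mem fun i _ => ?_
  exact IntermediateField.smul_mem _ (h2 _ (Finset.mem_image_of_mem _ (mem_univ i)))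

end field

/-! ### independence -/

section ind
variable {K : Type} [Field K] [NumberField K]

theorem three_dvd {p : 𝓞 K} (hp : Prime p) {z c : 𝓞 K} {n : ℕ} (h : z ^ 3 = p ^ n * c)
    (hc : ¬ p ∣ c) : 3 ∣ n := by
  have h1 : emultiplicity p (z ^ 3) = 3 * emultiplicity p z := by
    rw [emultiplicity_pow hp]
    rfl
  have h2 : emultiplicity p (p ^ n * c) = n := by
    rw [emultiplicity_mul hp, emultiplicity_pow_self hp.ne_zero hp.not_isUnit,
      emultiplicity_eq_zero.2 hc, add_zero]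
  rw [h, h2] at h1
  have hz : z ≠ 0 := by
    rintro rfl
    rw [zero_pow three_ne_zero] at h
    have h3 : c ≠ 0 := by
      rintro rfl
      exact hc (dvd_zero p)
    exact mul_ne_zero (pow_ne_zero n hp.ne_zero) h3 h.symm
  have hfin : FiniteMultiplicity p z := FiniteMultiplicity.of_prime_left hp hz
  rw [hfin.emultiplicity_eq_multiplicity] at h1
  refine ⟨multiplicity p z, ?_⟩
  exact_mod_cast h1

theorem pp_dvd [IsCyclotomicExtension {3} ℚ K] {p q : 𝓞 K} (hp : PP p) (hq : PP q) (h : p ∣ q) :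
    p = q := by
  obtain ⟨⟨j, hj⟩, -⟩ := Pool.Agent.Y455.CTK.jex K
  obtain ⟨a, rfl⟩ := j.surjective p
  obtain ⟨b, rfl⟩ := j.surjective q
  have h1 := (Pool.Agent.U693.EisK.pp_iff j a).1 hp
  have h2 := (Pool.Agent.U693.EisK.pp_iff j b).1 hq
  rw [Pool.Agent.Y699.E.eq_of_dvd h1 h2 ((map_dvd_iff j).1 h)]

theorem dd_ind [IsCyclotomicExtension {3} ℚ K] {p₀ : 𝓞 K} {A : Finset (𝓞 K)}
    (hA : ∀ p ∈ A, PP p) (h0 : p₀ ∈ A) {a : {p : 𝓞 K // p ∈ A.erase p₀} → ℕ}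
    (h : ∃ z : 𝓞 K, z ^ 3 = ∏ i, dd p₀ A i ^ a i) (i : {p : 𝓞 K // p ∈ A.erase p₀}) : 3 ∣ a i := by
  obtain ⟨z, hz⟩ := h
  have hi := hA _ (Finset.mem_of_mem_erase i.2)
  have hi0 : ¬ i.1 ∣ p₀ := fun h => (Finset.ne_of_mem_erase i.2) (pp_dvd hi (hA p₀ h0) h)
  rw [← mul_prod_erase univ _ (mem_univ i)] at hz
  refine three_dvd hi.1 (z := z) (c := (p₀ ^ 2) ^ a i * ∏ k ∈ univ.erase i, dd p₀ A k ^ a k) ?_ ?_
  · rw [hz]
    unfold dd
    rw [mul_pow, mul_assoc]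
  · intro hd
    rcases hi.1.dvd_or_dvd hd with h1 | h1
    · exact hi0 (hi.1.dvd_of_dvd_pow (hi.1.dvd_of_dvd_pow h1))
    · obtain ⟨k, hk, h2⟩ := (hi.1.dvd_finsetProd_iff _).1 h1
      rcases hi.1.dvd_or_dvd (hi.1.dvd_of_dvd_pow h2) with h3 | h3
      · have h4 := pp_dvd hi (hA _ (Finset.mem_of_mem_erase k.2)) h3
        exact (Finset.ne_of_mem_erase hk) (Subtype.ext h4.symm)
      · exact hi0 (hi.1.dvd_of_dvd_pow h3)

end ind

/-! ### products of elements of `T` -/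

section gam
variable {K : Type} [Field K] [NumberField K]

/-- products of `3 m` elements of `T` -/
def Gam (T : Set (𝓞 K)) (d : 𝓞 K) : Prop :=
  ∃ B : Multiset (𝓞 K), (∀ q ∈ B, q ∈ T) ∧ 3 ∣ B.card ∧ d = B.prod

variable {T : Set (𝓞 K)}

theorem gam_one : Gam T 1 := ⟨0, by simp, by simp, by simp⟩

theorem gam_mul {d e : 𝓞 K} (hd : Gam T d) (he : Gam T e) : Gam T (d * e) := by
  obtain ⟨B, h1, h2, rfl⟩ := hd
  obtain ⟨C, h3, h4, rfl⟩ := he
  refine ⟨B + C, fun q hq => ?_, ?_, by rw [Multiset.prod_add]⟩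
  · rcases Multiset.mem_add.1 hq with h | h
    · exact h1 q h
    · exact h3 q h
  · rw [Multiset.card_add]
    exact dvd_add h2 h4

theorem gam_pow {d : 𝓞 K} (hd : Gam T d) (n : ℕ) : Gam T (d ^ n) := by
  induction n with
  | zero => rw [pow_zero]; exact gam_one
  | succ n ih => rw [pow_succ]; exact gam_mul ih hd

theorem gam_prod {ι : Type} (s : Finset ι) {f : ι → 𝓞 K} (h : ∀ i ∈ s, Gam T (f i)) :
    Gam T (∏ i ∈ s, f i) := by
  induction s using Finset.induction_on with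
  | empty => rw [prod_empty]; exact gam_one
  | insert b s hb ih =>
    rw [prod_insert hb]
    exact gam_mul (h b (mem_insert_self _ _)) (ih fun i hi => h i (mem_insert_of_mem hi))

theorem gam_dd {p₀ : 𝓞 K} {A : Finset (𝓞 K)} (hA : (A : Set (𝓞 K)) ⊆ T) (h0 : p₀ ∈ A)
    (p : {p : 𝓞 K // p ∈ A.erase p₀}) : Gam T (dd p₀ A p) := by
  refine ⟨{p.1, p₀, p₀}, fun q hq => ?_, by simp, ?_⟩
  · simp only [Multiset.insert_eq_cons, Multiset.mem_cons, Multiset.mem_singleton] at hq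
    rcases hq with rfl | rfl | rfl
    · exact hA (Finset.mem_coe.2 (Finset.mem_of_mem_erase p.2))
    · exact hA (Finset.mem_coe.2 h0)
    · exact hA (Finset.mem_coe.2 h0)
  · unfold dd
    simp only [Multiset.insert_eq_cons, Multiset.prod_cons, Multiset.prod_singleton]
    ring

theorem gam_three (hT : ∀ q ∈ T, PP q) {d : 𝓞 K} (hd : Gam T d) : (3 : 𝓞 K) ∣ d - 1 := by
  obtain ⟨B, h1, -, rfl⟩ := hd
  induction B using Multiset.induction_on with
  | empty => simp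
  | cons a B ih =>
    rw [Multiset.prod_cons]
    exact Pool.Agent.U854.TW.dvd_mul_one (hT a (h1 a (Multiset.mem_cons_self _ _))).2
      (ih fun q hq => h1 q (Multiset.mem_cons_of_mem hq))

end gam

section main
variable {K : Type} [Field K] [NumberField K] [IsCyclotomicExtension {3} ℚ K]

/-- the family -/
theorem family {T : Set (𝓞 K)} (hT : ∀ q ∈ T, PP q)
    (h9 : ∀ d, Gam T d → (9 : ℤ) ∣ Algebra.norm ℤ d - 1) {p₀ : 𝓞 K} {A : Finset (𝓞 K)}
    (hA : (A : Set (𝓞 K)) ⊆ T) (h0 : p₀ ∈ A) {m : ℕ}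
    {t : Fin m → {p : 𝓞 K // p ∈ A.erase p₀} → ZMod 3} (ht : LinearIndependent (ZMod 3) t) :
    Pool.Agent.U854.TW.Family (fun j => ∏ i, dd p₀ A i ^ (t j i).val) ∧
      ∀ j, Gam T (∏ i, dd p₀ A i ^ (t j i).val) := by
  have hG : ∀ j, Gam T (∏ i, dd p₀ A i ^ (t j i).val) := fun j =>
    gam_prod _ fun i _ => gam_pow (gam_dd hA h0 i) _
  refine ⟨⟨fun j => gam_three hT (hG j), fun j => h9 _ (hG j), fun c hc j => ?_⟩, hG⟩
  have h1 : ∏ j, (∏ i, dd p₀ A i ^ (t j i).val) ^ c j =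
      ∏ i, dd p₀ A i ^ (∑ j, (t j i).val * c j) := by
    have h2 : ∀ j, (∏ i, dd p₀ A i ^ (t j i).val) ^ c j = ∏ i, dd p₀ A i ^ ((t j i).val * c j) := by
      intro j
      rw [← prod_pow]
      exact prod_congr rfl fun i _ => by rw [← pow_mul]
    rw [prod_congr rfl fun j _ => h2 j, prod_comm]
    exact prod_congr rfl fun i _ => (prod_pow_eq_pow_sum _ _ _)
  rw [h1] at hc
  have h3 := dd_ind (fun p hp => hT p (hA (Finset.mem_coe.2 hp))) h0 hc
  have h4 : ∑ j, (c j : ZMod 3) • t j = 0 := by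
    funext i
    have h5 := (ZMod.natCast_eq_zero_iff _ _).2 (h3 i)
    push_cast at h5
    rw [Finset.sum_apply, Pi.zero_apply, ← h5]
    refine sum_congr rfl fun j _ => ?_
    rw [Pi.smul_apply, smul_eq_mul, ZMod.natCast_zmod_val, mul_comm]
  exact (ZMod.natCast_eq_zero_iff _ _).1 ((Fintype.linearIndependent_iff.1 ht) _ h4 j)

/-- **All the number fields between `K` and `K(∛(p / q) : p, q ∈ T)`.** -/
theorem main_F {D : 𝓞 K} (hD : ClsK D) {T : Set (𝓞 K)} (hT : ∀ q ∈ T, PP q)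
    (h9 : ∀ d, Gam T d → (9 : ℤ) ∣ Algebra.norm ℤ d - 1)
    (hTri : ∀ d, Gam T d → Tri (D * d)) {p₀ : 𝓞 K} (h0 : p₀ ∈ T)
    (F : IntermediateField K (AlgebraicClosure K)) (hF : F ≤ cf T) (hfd : FiniteDimensional K F)
    (hN : NumberField F) :
    ∃ (n : ℕ) (d : 𝓞 K), Gam T d ∧ Module.finrank K F = 3 ^ n ∧
      (∃ L : ℂ → ℂ, Differentiable ℂ L ∧ L 1 ≠ 0 ∧ ∀ s : ℂ, 3 / 2 < s.re →
        HasProd (fun v : {v : HeightOneSpectrum (𝓞 F) |
          algebraMap (𝓞 K) (𝓞 F) (3 * D * d) ∉ v.asIdeal} =>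
            ef (algebraMap (𝓞 K) (𝓞 F) D) s v.1) (L s)) ∧
      Finite (ED (algebraMap K F (D : K))).toAffine.Point ∧
      ∀ (k : ℕ) (y : Sha (ED (algebraMap K F (D : K)))), 3 ^ k • y = 0 → 3 ^ n • y = 0 := by
  obtain ⟨⟨j, hj⟩, -⟩ := Pool.Agent.Y455.CTK.jex K
  have hω := Pool.Agent.R432.C.om_K j
  obtain ⟨A', hA', hFA'⟩ := cf_sub F hF
  obtain ⟨A, hAd⟩ : ∃ A, A = insert p₀ A' := ⟨_, rfl⟩
  have h0A : p₀ ∈ A := by rw [hAd]; exact mem_insert_self _ _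
  have hA : (A : Set (𝓞 K)) ⊆ T := by
    intro q hq
    rw [hAd] at hq
    rcases mem_insert.1 (Finset.mem_coe.1 hq) with rfl | h
    · exact h0
    · exact hA' (Finset.mem_coe.2 h)
  have hAne : ∀ p ∈ A, p ≠ 0 := fun p hp => (hT p (hA (Finset.mem_coe.2 hp))).1.ne_zero
  have hFA : F ≤ adjoin K (Set.range (xx p₀ A)) := by
    rw [← cf_fin hω h0A hAne]
    refine hFA'.trans (cf_mono ?_)
    rw [hAd]
    exact_mod_cast Finset.subset_insert _ _
  have hdd : ∀ i, (dd p₀ A i : K) ≠ 0 := by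
    intro i h
    have h1 : dd p₀ A i = 0 := by exact_mod_cast h
    unfold dd at h1
    exact mul_ne_zero (hAne _ (Finset.mem_of_mem_erase i.2)) (pow_ne_zero 2 (hAne _ h0A)) h1
  obtain ⟨m, t, ht, hgen⟩ := inter_gen hω hdd (xx_cube p₀ A) F hFA
  obtain ⟨hfam, hG⟩ := family hT h9 hA h0A ht
  obtain ⟨r, hr1, hr2⟩ := Pool.Agent.U854.TW.perF K hfam hD
  have hmem : ∀ i, mono (xx p₀ A) (t i) ∈ F := fun i => by
    have h1 : mono (xx p₀ A) (t i) ∈ adjoin K (Set.range fun j => mono (xx p₀ A) (t j)) :=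
      subset_adjoin K _ ⟨i, rfl⟩
    rwa [← hgen] at h1
  have hcoe : ∀ i, ((∏ k, dd p₀ A k ^ (t i k).val : 𝓞 K) : K) =
      ∏ k, (dd p₀ A k : K) ^ (t i k).val := by
    intro i
    push_cast
    rfl
  obtain ⟨h1, -, h3⟩ := hr2 F (fun i => ⟨mono (xx p₀ A) (t i), hmem i⟩)
    (fun i => by
      apply Subtype.ext
      show mono (xx p₀ A) (t i) ^ 3 = algebraMap K (AlgebraicClosure K)
        ((∏ k, dd p₀ A k ^ (t i k).val : 𝓞 K) : K)
      rw [hcoe, mono_cube (xx_cube p₀ A)])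
    (gen_of hgen _ fun _ => rfl)
  obtain ⟨g1, g2, g3⟩ := h3 fun s => by
    refine (hr1 s).2.2.2 (hTri _ ?_)
    unfold Pool.Agent.U854.TW.mt
    exact gam_prod _ fun i _ => gam_pow (hG i) _
  exact ⟨m, _, gam_prod _ fun i _ => hG i, h1, g1, g2, g3⟩

end main

end Pool.Agent.U693.CT
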