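import Pool.Agent.U693.X49.Gen

/-!
# Weighted Laplacians over finite fields: extension by homogeneous sets with weights of sum zero
-/

set_option autoImplicit false
set_option linter.unusedSectionVars false

open scoped Classical

namespace Pool.Agent.U693.CT

open Finset
open Pool.Agent.U693.Gen (Hom)

variable {V F : Type} [DecidableEq V] [Field F]

/-- all the solutions with the weights `e` are constant on the support of `e` -/
def GdW (s : V → V → F) (e : V → F) (S : Finset V) : Prop :=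
  ∀ x : V → F, (∀ p ∈ S, e p ≠ 0 → ∑ q ∈ S, e q * s p q * (x q - x p) = 0) →
    ∀ p ∈ S, ∀ q ∈ S, e p ≠ 0 → e q ≠ 0 → x p = x q

/-- **extension** -/
theorem gdW_ext {s : V → V → F} {e : V → F} {P A : Finset V} {u v : V → F} {c : F}
    (hd : Disjoint P A) (hm : ∑ q ∈ A, e q = 0) (hP : ∃ i ∈ P, e i ≠ 0) (hG : GdW s e P)
    (hu : ∀ i ∈ P, ∀ q ∈ A, s i q = u i) (hv : ∀ q ∈ A, ∀ i ∈ P, s q i = v i)
    (hc : ∀ p ∈ A, ∀ q ∈ A, p ≠ q → s p q = c)
    (hV : ∑ i ∈ P, e i * v i ≠ 0) : GdW s e (P ∪ A) := by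
  intro x hx
  set X : F := ∑ q ∈ A, e q * x q with hX
  set W : F := ∑ i ∈ P, e i * v i * x i with hW
  set v₀ : F := ∑ i ∈ P, e i * v i with hv₀
  have hsum : ∀ p, ∑ q ∈ A, e q * (x q - x p) = X := by
    intro p
    simp only [mul_sub]
    rw [sum_sub_distrib, ← sum_mul, hm, zero_mul, sub_zero]
  have hnew : ∀ p ∈ A, e p ≠ 0 → x p = (W + c * X) / v₀ := by
    intro p hp hep
    have h1 := hx p (mem_union_right _ hp) hep
    rw [sum_union hd] at h1
    have h2 : ∑ q ∈ P, e q * s p q * (x q - x p) = W - v₀ * x p := by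
      have : ∀ q ∈ P, e q * s p q * (x q - x p) = e q * v q * x q - e q * v q * x p := by
        intro q hq
        rw [hv p hp q hq]
        ring
      rw [sum_congr rfl this, sum_sub_distrib, ← sum_mul]
    have h3 : ∑ q ∈ A, e q * s p q * (x q - x p) = c * X := by
      rw [← hsum p, mul_sum]
      refine sum_congr rfl fun q hq => ?_
      by_cases hpq : p = q
      · rw [hpq, sub_self, mul_zero, mul_zero, mul_zero]
      · rw [hc p hp q hq hpq]
        ring
    rw [h2, h3] at h1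
    rw [eq_div_iff hV]
    linear_combination -h1
  have hX0 : X = 0 := by
    have h1 : ∀ q ∈ A, e q * x q = e q * ((W + c * X) / v₀) := by
      intro q hq
      by_cases h : e q = 0
      · rw [h, zero_mul, zero_mul]
      · rw [hnew q hq h]
    rw [hX, sum_congr rfl h1, ← sum_mul, hm, zero_mul]
  have hold : ∀ i ∈ P, e i ≠ 0 → ∑ q ∈ P, e q * s i q * (x q - x i) = 0 := by
    intro i hi hi1
    have h1 := hx i (mem_union_left _ hi) hi1
    rw [sum_union hd] at h1
    have h3 : ∑ q ∈ A, e q * s i q * (x q - x i) = u i * X := by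
      rw [← hsum i, mul_sum]
      exact sum_congr rfl fun q hq => by rw [hu i hi q hq]; ring
    rw [h3, hX0, mul_zero, add_zero] at h1
    exact h1
  have hP0 := hG x hold
  obtain ⟨i₀, hi₀, he₀⟩ := hP
  have hPt : ∀ i ∈ P, e i ≠ 0 → x i = x i₀ := fun i hi hei => hP0 i hi i₀ hi₀ hei he₀
  have hWt : W = v₀ * x i₀ := by
    rw [hW, hv₀, sum_mul]
    refine sum_congr rfl fun i hi => ?_
    by_cases h : e i = 0
    · rw [h, zero_mul, zero_mul, zero_mul]
    · rw [hPt i hi h]
  have hall : ∀ p ∈ P ∪ A, e p ≠ 0 → x p = x i₀ := by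
    intro p hp hep
    rcases mem_union.1 hp with h | h
    · exact hPt p h hep
    · rw [hnew p h hep, hX0, hWt, mul_zero, add_zero, mul_div_cancel_left₀ _ hV]
  intro p hp q hq hep heq
  rw [hall p hp hep, hall q hq heq]

theorem gdW_hom {C : Type} {s : V → V → F} {κ : V → C} {e : V → F} {P A : Finset V}
    (hd : Disjoint P A) (hm : ∑ q ∈ A, e q = 0) (hP : ∃ i ∈ P, e i ≠ 0) (hG : GdW s e P)
    (hH : Hom s κ P A) (hV : ∀ q ∈ A, ∑ i ∈ P, e i * s q i ≠ 0) : GdW s e (P ∪ A) := by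
  rcases A.eq_empty_or_nonempty with rfl | ⟨q₀, hq₀⟩
  · rwa [union_empty]
  by_cases hp : ∃ r ∈ A, r ≠ q₀
  · obtain ⟨r, hr, hrq⟩ := hp
    exact gdW_ext (u := fun i => s i q₀) (v := fun i => s q₀ i) (c := s r q₀) hd hm hP hG
      (fun i hi q hq => hH.inn i hi q hq q₀ hq₀) (fun q hq i hi => hH.out i hi q hq q₀ hq₀)
      (fun p h1 q h2 hpq => hH.pr p h1 q h2 r hr q₀ hq₀ hpq hrq) (hV q₀ hq₀)
  · push Not at hp
    exact gdW_ext (u := fun i => s i q₀) (v := fun i => s q₀ i) (c := 0) hd hm hP hG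
      (fun i hi q hq => hH.inn i hi q hq q₀ hq₀) (fun q hq i hi => hH.out i hi q hq q₀ hq₀)
      (fun p h1 q h2 hpq => absurd ((hp p h1).trans (hp q h2).symm) hpq) (hV q₀ hq₀)

end Pool.Agent.U693.CT
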